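import Mathlib

/-! Project TC (helper347), part OVF (helper853): overfull blow-ups. -/

set_option autoImplicit false

namespace Pool.Agent.N853.TCOVF

/-- Overfull blow-ups. -/
theorem ovf {V : Type} [Fintype V] (H : SimpleGraph V) (d m : ℕ) (hm : Odd m)
    (C : H.ConnectedComponent) (hC : Odd C.supp.ncard)
    (hr : ∀ v ∈ C.supp, (H.neighborSet v).ncard = d) (k : ℕ) (g : V × Fin m → V × Fin m → ℕ)
    (hs : ∀ x y, H.Adj x.1 y.1 → g x y = g y x ∧ g x y < k)
    (hp : ∀ x y z, H.Adj x.1 y.1 → H.Adj x.1 z.1 → y ≠ z → g x y ≠ g x z) :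
    d = 0 ∨ d * m + 1 ≤ k := by
  classical
  by_cases hd : d = 0
  · exact Or.inl hd
  right
  by_contra hk
  push Not at hk
  have hm0 : 0 < m := hm.pos
  have hdm : 0 < d * m := Nat.mul_pos (Nat.pos_of_ne_zero hd) hm0
  let N : V × Fin m → Finset (V × Fin m) := fun x => Finset.univ.filter fun y => H.Adj x.1 y.1
  have hNm : ∀ x y, y ∈ N x ↔ H.Adj x.1 y.1 := fun x y => by simp [N]
  have hN : ∀ x, x.1 ∈ C.supp → (N x).card = d * m := by
    intro x hx
    have h1 : N x = (Finset.univ.filter fun v => H.Adj x.1 v) ×ˢ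
        (Finset.univ : Finset (Fin m)) := by
      ext y
      rw [hNm]
      simp
    rw [h1, Finset.card_product, Finset.card_univ, Fintype.card_fin]
    congr 1
    rw [← hr x.1 hx, Set.ncard_eq_toFinset_card']
    congr 1
    ext v
    simp
  have hex : ∀ x, x.1 ∈ C.supp → ∃ y, H.Adj x.1 y.1 ∧ g x y = 0 := by
    intro x hx
    have hinj : Set.InjOn (g x) (N x) := by
      intro y hy z hz h
      by_contra hne
      exact hp x y z ((hNm x y).1 hy) ((hNm x z).1 hz) hne h
    have hsub : (N x).image (g x) ⊆ Finset.range k := by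
      intro c hc
      obtain ⟨y, hy, rfl⟩ := Finset.mem_image.1 hc
      exact Finset.mem_range.2 (hs x y ((hNm x y).1 hy)).2
    have hcard : ((N x).image (g x)).card = d * m := by
      rw [Finset.card_image_of_injOn hinj, hN x hx]
    have heq : (N x).image (g x) = Finset.range k :=
      Finset.eq_of_subset_of_card_le hsub (by rw [hcard, Finset.card_range]; omega)
    have hk0 : 0 < k := by
      have h1 := Finset.card_le_card hsub
      rw [hcard, Finset.card_range] at h1
      omega
    have h0 : 0 ∈ (N x).image (g x) := by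
      rw [heq]
      exact Finset.mem_range.2 hk0
    obtain ⟨y, hy, h⟩ := Finset.mem_image.1 h0
    exact ⟨y, (hNm x y).1 hy, h⟩
  choose i hi1 hi2 using hex
  have hadj : ∀ v w, v ∈ C.supp → H.Adj v w → w ∈ C.supp := by
    intro v w hv hvw
    rw [SimpleGraph.ConnectedComponent.mem_supp_iff] at hv ⊢
    rw [← hv]
    exact (SimpleGraph.ConnectedComponent.sound hvw.reachable).symm
  let S : Finset (V × Fin m) := Finset.univ.filter fun x => x.1 ∈ C.supp
  have hSm : ∀ x, x ∈ S ↔ x.1 ∈ C.supp := fun x => by simp [S]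
  have hcS : S.card = C.supp.ncard * m := by
    have h1 : S = (Finset.univ.filter fun v => v ∈ C.supp) ×ˢ (Finset.univ : Finset (Fin m)) := by
      ext y
      rw [hSm]
      simp
    rw [h1, Finset.card_product, Finset.card_univ, Fintype.card_fin]
    congr 1
    rw [Set.ncard_eq_toFinset_card']
    congr 1
    ext v
    simp
  have hsum : ∑ _x ∈ S, (1 : ZMod 2) = 0 := by
    refine Finset.sum_involution (fun x hx => i x ((hSm x).1 hx)) ?_ ?_ ?_ ?_
    · intro x hx
      decide
    · intro x hx _ h
      have h1 := hi1 x ((hSm x).1 hx)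
      rw [h] at h1
      exact H.loopless.irrefl _ h1
    · intro x hx
      exact (hSm _).2 (hadj _ _ ((hSm x).1 hx) (hi1 x _))
    · intro x hx
      by_contra hne
      have hx' := (hSm x).1 hx
      have ha := hi1 x hx'
      have hix : (i x hx').1 ∈ C.supp := hadj _ _ hx' ha
      have h3 := hi1 (i x hx') hix
      have h4 := hi2 (i x hx') hix
      have h5 : g (i x hx') x = 0 := by
        rw [← (hs x (i x hx') ha).1]
        exact hi2 x hx'
      exact hp (i x hx') _ x h3 ha.symm hne (h4.trans h5.symm)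
  rw [Finset.sum_const, hcS, nsmul_eq_mul, mul_one] at hsum
  have h2 := (ZMod.natCast_eq_zero_iff_even).1 hsum
  exact (Nat.not_even_iff_odd.2 (hC.mul hm)) h2

end Pool.Agent.N853.TCOVF
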