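import Pool.Agent.N502.FR.Stm

/-!
# FR/MNS: sum of hooks of the next elements
-/

set_option autoImplicit false

namespace Pool.Agent.N853.FRMNS

open Finset Pool.Agent.N502.FR
open Pool.Agent.H13R3.WB (IsLow)

open Classical in
theorem main : S_MNS := by
  intro P _ _ hP m J hJ hcard
  have hdis : ∀ p ∈ univ.filter (fun p : P => p ∉ J ∧ IsLow (insert p J)),
      ∀ p' ∈ univ.filter (fun p : P => p ∉ J ∧ IsLow (insert p J)), p ≠ p' →
      Disjoint (univ.filter (fun z : P => p ≤ z)) (univ.filter (fun z : P => p' ≤ z)) := by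
    intro p hp p' hp' hne
    rw [mem_filter] at hp hp'
    rw [Finset.disjoint_left]
    intro z hz hz'
    rw [mem_filter] at hz hz'
    rcases hP z p p' hz.2 hz'.2 with h | h
    · have h1 := hp'.2.2 p' (mem_insert_self _ _) p h
      rw [mem_insert] at h1
      rcases h1 with h1 | h1
      · exact hne h1
      · exact hp.2.1 h1
    · have h1 := hp.2.2 p (mem_insert_self _ _) p' h
      rw [mem_insert] at h1
      rcases h1 with h1 | h1
      · exact hne h1.symm
      · exact hp'.2.1 h1
  have h1 : ∑ p ∈ univ.filter (fun p : P => p ∉ J ∧ IsLow (insert p J)), hk p =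
      ((univ.filter (fun p : P => p ∉ J ∧ IsLow (insert p J))).biUnion
        (fun p => univ.filter (fun z : P => p ≤ z))).card := by
    rw [card_biUnion hdis]
    rfl
  have h2 : (univ.filter (fun p : P => p ∉ J ∧ IsLow (insert p J))).biUnion
        (fun p => univ.filter (fun z : P => p ≤ z)) = Jᶜ := by
    ext z
    rw [mem_biUnion, mem_compl]
    constructor
    · rintro ⟨p, hp, hz⟩ hzJ
      rw [mem_filter] at hp hz
      exact hp.2.1 (hJ z hzJ p hz.2)
    · intro hz
      obtain ⟨p, hp⟩ := (univ.filter (fun q : P => q ≤ z ∧ q ∉ J)).exists_minimal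
        ⟨z, by rw [mem_filter]; exact ⟨mem_univ _, le_rfl, hz⟩⟩
      have hpm := hp.prop
      rw [mem_filter] at hpm
      refine ⟨p, ?_, ?_⟩
      · rw [mem_filter]
        refine ⟨mem_univ _, hpm.2.2, ?_⟩
        intro x hx q hq
        rw [mem_insert] at hx ⊢
        rcases hx with rfl | hx
        · by_contra hcon
          push Not at hcon
          have h3 : q ∈ univ.filter (fun q : P => q ≤ z ∧ q ∉ J) := by
            rw [mem_filter]
            exact ⟨mem_univ _, hq.trans hpm.2.1, hcon.2⟩
          exact hcon.1 (le_antisymm hq (hp.le_of_le h3 hq))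
        · right
          exact hJ x hx q hq
      · rw [mem_filter]
        exact ⟨mem_univ _, hpm.2.1⟩
  rw [h1, h2, card_compl]
  omega

end Pool.Agent.N853.FRMNS
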