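import Mathlib

/-!
# MX/PARENTS: two Markoff pairs with multiplicatively dependent norm forms are equal
-/

set_option autoImplicit false

namespace Pool.Agent.N853.MX

open Polynomial

/-- `9u^2 - 4` times a nonzero square is not a square -/
theorem not_sq {u s t : ℤ} (hu : 1 ≤ u) (hs : s ≠ 0) (h : t ^ 2 = (9 * u ^ 2 - 4) * s ^ 2) :
    False := by
  have h1 : s ^ 2 ∣ t ^ 2 := ⟨9 * u ^ 2 - 4, by rw [h]; ring⟩
  have h2 : s ∣ t := (Int.pow_dvd_pow_iff (by norm_num)).1 h1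
  obtain ⟨w, rfl⟩ := h2
  have h3 : w ^ 2 = 9 * u ^ 2 - 4 := by
    have : s ^ 2 * w ^ 2 = s ^ 2 * (9 * u ^ 2 - 4) := by
      rw [mul_comm (s ^ 2) (9 * u ^ 2 - 4), ← h]
      ring
    exact mul_left_cancel₀ (pow_ne_zero 2 hs) this
  have h4 : |w| ^ 2 = 9 * u ^ 2 - 4 := by rw [sq_abs]; exact h3
  have h5 : |w| < 3 * u := by
    by_contra hcon
    push Not at hcon
    nlinarith [abs_nonneg w]
  nlinarith [abs_nonneg w]

/-- the root is irrational -/
theorem lin_zero {u : ℤ} (hu : 1 ≤ u) {z : ℝ} (hz : z ^ 2 - 3 * u * z + 1 = 0) {s t : ℤ}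
    (h : (s : ℝ) * z + t = 0) : s = 0 ∧ t = 0 := by
  by_cases hs : s = 0
  · subst hs
    refine ⟨rfl, ?_⟩
    rw [Int.cast_zero, zero_mul, zero_add] at h
    exact_mod_cast h
  · exfalso
    have h1 : ((-2 * t - 3 * u * s : ℤ) : ℝ) ^ 2 = ((9 * u ^ 2 - 4 : ℤ) : ℝ) * (s : ℝ) ^ 2 := by
      push_cast
      have ht : (t : ℝ) = -(s * z) := by linarith
      rw [ht]
      linear_combination (4 * (s : ℝ) ^ 2) * hz
    refine not_sq hu hs (t := -2 * t - 3 * u * s) ?_
    exact_mod_cast h1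

/-- relations at the root hold modulo `p` -/
theorem transfer {u : ℤ} (hu : 1 ≤ u) {z : ℝ} (hz : z ^ 2 - 3 * u * z + 1 = 0) (Q : ℤ[X])
    (hQ : aeval z Q = 0) {p : ℕ} {r : ZMod p} (hr : r ^ 2 - 3 * u * r + 1 = 0) :
    aeval r Q = 0 := by
  set m : ℤ[X] := X ^ 2 - C (3 * u) * X + 1 with hm
  have hm' : m = X ^ 2 + (C (-(3 * u)) * X + C 1) := by
    rw [hm]
    simp only [map_neg, map_one]
    ring
  have hdeg : (C (-(3 * u)) * X + C 1 : ℤ[X]).degree < 2 :=
    lt_of_le_of_lt degree_linear_le (by norm_num)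
  have hmon : m.Monic := by
    rw [hm']
    exact monic_X_pow_add (by exact_mod_cast hdeg)
  have hmd : m.natDegree = 2 := by
    rw [hm']
    compute_degree!
  have hmz : aeval z m = 0 := by
    rw [hm]
    simp only [map_add, map_sub, map_mul, map_pow, aeval_X, aeval_C, map_one]
    rw [← hz]
    simp
  have hmr : aeval r m = 0 := by
    rw [hm]
    simp only [map_add, map_sub, map_mul, map_pow, aeval_X, aeval_C, map_one]
    rw [← hr]
    simp
  have hdiv := modByMonic_add_div Q m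
  have hrem : (Q %ₘ m).natDegree ≤ 1 := by
    have h1 := natDegree_modByMonic_lt Q hmon (by
      intro h1
      rw [h1] at hmd
      simp at hmd)
    omega
  obtain ⟨s, t, hst⟩ := exists_eq_X_add_C_of_natDegree_le_one hrem
  have hz1 : aeval z (Q %ₘ m) = 0 := by
    have h1 := congrArg (aeval z) hdiv
    rw [map_add, map_mul, hmz, zero_mul, add_zero, hQ] at h1
    exact h1
  rw [hst] at hz1
  simp only [map_add, map_mul, aeval_X, aeval_C] at hz1
  obtain ⟨h1, h2⟩ := lin_zero hu hz (s := s) (t := t) (by simpa using hz1)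
  have hQm : Q = m * (Q /ₘ m) := by
    conv_lhs => rw [← hdiv, hst, h1, h2]
    simp
  rw [hQm, map_mul, hmr, zero_mul]

/-- a coprime integer is a unit modulo `p` -/
theorem ne_zero_of_coprime {A u : ℤ} (h : IsCoprime A u) {p : ℕ} [Fact p.Prime]
    (hp : (p : ℤ) ∣ u) : ((A : ℤ) : ZMod p) ≠ 0 := by
  intro h0
  rw [ZMod.intCast_zmod_eq_zero_iff_dvd] at h0
  have h1 := h.isUnit_of_dvd' h0 hp
  have h2 : (p : ℤ).natAbs = 1 := Int.isUnit_iff_natAbs_eq.1 h1
  rw [Int.natAbs_natCast] at h2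
  exact (Fact.out : p.Prime).one_lt.ne' h2

/-- (1) -/
theorem step1 {u A B A' B' : ℤ} (hu : 1 ≤ u) (h : A^2+B^2+u^2 = 3*u*A*B) (c1 : IsCoprime A u)
    (c2 : IsCoprime B u) {lam : ℝ} (hl : 1 < lam) (hlam : lam^2 - 3*u*lam + 1 = 0) {b : ℕ}
    (hb : 1 ≤ b) {n : ℤ}
    (hrel : ((B' : ℝ) - A' * lam⁻¹)^b = ((B : ℝ) - A * lam⁻¹)^b * lam^n)
    {p : ℕ} [Fact p.Prime] (hp : (p : ℤ) ∣ u) :
    ((A' : ℤ) : ZMod p) * B = (B' : ZMod p) * A := by
  have hl0 : lam ≠ 0 := by positivity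
  set z : ℝ := lam⁻¹ with hz
  have hzl : z * lam = 1 := inv_mul_cancel₀ hl0
  have hz2 : z ^ 2 - 3 * u * z + 1 = 0 := by
    have : z ^ 2 * (lam^2 - 3*u*lam + 1) = 0 := by rw [hlam, mul_zero]
    have e : z ^ 2 * (lam^2 - 3*u*lam + 1) = (z * lam) ^ 2 - 3 * u * z * (z * lam) + z ^ 2 := by
      ring
    rw [e, hzl] at this
    linarith
  have hA0 := ne_zero_of_coprime c1 hp
  have hB0 := ne_zero_of_coprime c2 hp
  have hu0 : ((u : ℤ) : ZMod p) = 0 := by
    rw [ZMod.intCast_zmod_eq_zero_iff_dvd]; exact hp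
  have hAB : (A : ZMod p) ^ 2 + (B : ZMod p) ^ 2 = 0 := by
    have h1 := congrArg (fun x : ℤ => (x : ZMod p)) h
    push_cast at h1
    rw [hu0] at h1
    linear_combination h1
  set r : ZMod p := (B : ZMod p) * (A : ZMod p)⁻¹ with hr
  have hrA : r * A = B := by
    rw [hr, mul_assoc, inv_mul_cancel₀ hA0, mul_one]
  have hr0 : r ≠ 0 := mul_ne_zero hB0 (inv_ne_zero hA0)
  have hr2 : r ^ 2 - 3 * (u : ℤ) * r + 1 = 0 := by
    rw [hu0]
    have : (A : ZMod p) ^ 2 * (r ^ 2 - 3 * 0 * r + 1) = 0 := by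
      linear_combination hAB + (r * A + B) * hrA
    exact (mul_eq_zero.1 this).resolve_left (pow_ne_zero 2 hA0)
  have hkey : ((B' : ZMod p) - A' * r) ^ b = 0 := by
    rcases le_or_gt n 0 with hn | hn
    · obtain ⟨k, hk⟩ := Int.eq_ofNat_of_zero_le (show 0 ≤ -n by omega)
      have hn' : n = -(k : ℤ) := by omega
      have hlk : lam ^ n = z ^ k := by
        rw [hn', zpow_neg, zpow_natCast, hz, inv_pow]
      have h1 := transfer hu hz2 ((C B' - C A' * X) ^ b - (C B - C A * X) ^ b * X ^ k) (by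
        simp only [map_sub, map_mul, map_pow, aeval_X, aeval_C]
        rw [hlk] at hrel
        simpa using sub_eq_zero.2 hrel) hr2
      simp only [map_sub, map_mul, map_pow, aeval_X, aeval_C] at h1
      have e0 : (algebraMap ℤ (ZMod p)) B - (algebraMap ℤ (ZMod p)) A * r = 0 := by
        simp only [algebraMap_int_eq, eq_intCast]
        rw [mul_comm, hrA, sub_self]
      rw [e0, zero_pow (by omega), zero_mul, sub_zero] at h1
      simpa using h1
    · obtain ⟨k, hk⟩ := Int.eq_ofNat_of_zero_le hn.le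
      have hlk : lam ^ n * z ^ k = 1 := by
        rw [hk, zpow_natCast, ← mul_pow, mul_comm, hzl, one_pow]
      have h1 := transfer hu hz2 ((C B' - C A' * X) ^ b * X ^ k - (C B - C A * X) ^ b) (by
        simp only [map_sub, map_mul, map_pow, aeval_X, aeval_C]
        have : ((B' : ℝ) - A' * z) ^ b * z ^ k = ((B : ℝ) - A * z) ^ b := by
          rw [hrel, mul_assoc, hlk, mul_one]
        simpa using sub_eq_zero.2 this) hr2
      simp only [map_sub, map_mul, map_pow, aeval_X, aeval_C] at h1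
      have e0 : (algebraMap ℤ (ZMod p)) B - (algebraMap ℤ (ZMod p)) A * r = 0 := by
        simp only [algebraMap_int_eq, eq_intCast]
        rw [mul_comm, hrA, sub_self]
      rw [e0, zero_pow (by omega), sub_zero] at h1
      have h2 := (mul_eq_zero.1 h1).resolve_right (pow_ne_zero _ hr0)
      simpa using h2
  have h3 := pow_eq_zero_iff (by omega : b ≠ 0) |>.1 hkey
  rw [← hrA]
  linear_combination (-(A : ZMod p)) * h3

/-- (3) -/
theorem step3 {u A B A' B' : ℤ} (h : A^2+B^2+u^2 = 3*u*A*B) (c1 : IsCoprime A u)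
    (c1' : IsCoprime A' u) {p : ℕ} [Fact p.Prime] (hp : (p : ℤ) ∣ u) (hp2 : p ≠ 2)
    (hG : ((A' : ℤ) : ZMod p) * B = (B' : ZMod p) * A) :
    ¬ (p : ℤ) ∣ B' * B - A' * A := by
  intro h2
  rw [← ZMod.intCast_zmod_eq_zero_iff_dvd] at h2
  push_cast at h2
  have hA0 := ne_zero_of_coprime c1 hp
  have hA0' := ne_zero_of_coprime c1' hp
  have hu0 : ((u : ℤ) : ZMod p) = 0 := by
    rw [ZMod.intCast_zmod_eq_zero_iff_dvd]; exact hp
  have hAB : (A : ZMod p) ^ 2 + (B : ZMod p) ^ 2 = 0 := by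
    have h1 := congrArg (fun x : ℤ => (x : ZMod p)) h
    push_cast at h1
    rw [hu0] at h1
    linear_combination h1
  have h3 : (A' : ZMod p) * ((B : ZMod p) ^ 2 - (A : ZMod p) ^ 2) = 0 := by
    linear_combination (B : ZMod p) * hG + (A : ZMod p) * h2
  have h4 := (mul_eq_zero.1 h3).resolve_left hA0'
  have h5 : (2 : ZMod p) * (A : ZMod p) ^ 2 = 0 := by linear_combination hAB - h4
  have h6 := (mul_eq_zero.1 h5).resolve_right (pow_ne_zero 2 hA0)
  have h7 : ((2 : ℕ) : ZMod p) = 0 := by exact_mod_cast h6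
  rw [ZMod.natCast_eq_zero_iff] at h7
  exact hp2 ((Nat.prime_dvd_prime_iff_eq Fact.out Nat.prime_two).1 h7)

theorem mod8 : ∀ a b k : ZMod 8, (a = 1 ∨ a = 3 ∨ a = 5 ∨ a = 7) →
    (b = 1 ∨ b = 3 ∨ b = 5 ∨ b = 7) → a ^ 2 + b ^ 2 + 4 * k ^ 2 = 6 * k * a * b →
    2 * (k * a * b) = 2 := by decide

theorem mod4 : ∀ a b a' b' k : ZMod 4, k * a * b = 1 → k * a' * b' = 1 → a' * b = b' * a := by
  decide

theorem odd8 {A : ℤ} (h : Odd A) : ((A : ZMod 8) = 1 ∨ (A : ZMod 8) = 3 ∨ (A : ZMod 8) = 5 ∨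
    (A : ZMod 8) = 7) := by
  obtain ⟨c, rfl⟩ := h
  have : ∀ c : ZMod 8, (2 * c + 1 = 1 ∨ 2 * c + 1 = 3 ∨ 2 * c + 1 = 5 ∨ 2 * c + 1 = 7) := by
    decide
  push_cast
  exact this c

/-- the equation at 2 -/
theorem at2 {k A B : ℤ} (hA : Odd A) (hB : Odd B)
    (h : A^2+B^2+(2 * k)^2 = 3*(2 * k)*A*B) : ((k : ℤ) : ZMod 4) * A * B = 1 := by
  have h1 := congrArg (fun x : ℤ => (x : ZMod 8)) h
  push_cast at h1
  have h2 := mod8 A B k (odd8 hA) (odd8 hB) (by linear_combination h1)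
  have h3 : ((2 * (k * A * B) - 2 : ℤ) : ZMod 8) = 0 := by
    push_cast
    rw [h2, sub_self]
  have h4 : ((8 : ℕ) : ℤ) ∣ 2 * (k * A * B) - 2 := (ZMod.intCast_zmod_eq_zero_iff_dvd _ 8).1 h3
  have h5 : ((4 : ℕ) : ℤ) ∣ k * A * B - 1 := by
    push_cast at h4 ⊢
    omega
  have h6 := (ZMod.intCast_zmod_eq_zero_iff_dvd _ 4).2 h5
  push_cast at h6
  exact sub_eq_zero.1 h6

theorem same_parents {u A B A' B' : ℤ} (hu : 1 ≤ u) (hA : 1 ≤ A) (hB : 1 ≤ B) (hA' : 1 ≤ A')
    (hB' : 1 ≤ B') (hAu : A ≤ u) (hBu : B ≤ u) (hAu' : A' ≤ u) (hBu' : B' ≤ u)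
    (h : A^2+B^2+u^2 = 3*u*A*B) (h' : A'^2+B'^2+u^2 = 3*u*A'*B') (c1 : IsCoprime A u)
    (c2 : IsCoprime B u) (c3 : IsCoprime A B) (c1' : IsCoprime A' u) (c2' : IsCoprime B' u)
    (c3' : IsCoprime A' B') {lam : ℝ} (hl : 1 < lam) (hlam : lam^2 - 3*u*lam + 1 = 0) {b : ℕ}
    (hb : 1 ≤ b) {n : ℤ}
    (hrel : ((B' : ℝ) - A' * lam⁻¹)^b = ((B : ℝ) - A * lam⁻¹)^b * lam^n) : A = A' ∧ B = B' := by
  have hG : ∀ p : ℕ, p.Prime → (p : ℤ) ∣ u → ((A' : ℤ) : ZMod p) * B = (B' : ZMod p) * A := by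
    intro p hp hpu
    have : Fact p.Prime := ⟨hp⟩
    exact step1 hu h c1 c2 hl hlam hb hrel hpu
  have hid : (A' * B - B' * A) * (B' * B - A' * A) = u ^ 2 * (A * B - A' * B') := by
    linear_combination (A' * B') * h - (A * B) * h'
  -- a divisor of `u` without even prime factors is coprime to `G2`
  have hcop : ∀ v : ℤ, v ∣ u → Odd v → IsCoprime v (B' * B - A' * A) := by
    intro v hv hodd
    rw [Int.isCoprime_iff_gcd_eq_one]
    by_contra hne
    obtain ⟨p, hp, hpd⟩ := Nat.exists_prime_and_dvd hne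
    have : Fact p.Prime := ⟨hp⟩
    have hp1 : (p : ℤ) ∣ v := (Int.natCast_dvd_natCast.2 hpd).trans (Int.gcd_dvd_left _ _)
    have hp2 : (p : ℤ) ∣ B' * B - A' * A :=
      (Int.natCast_dvd_natCast.2 hpd).trans (Int.gcd_dvd_right _ _)
    have hpne : p ≠ 2 := by
      rintro rfl
      have h2v : (2 : ℤ) ∣ v := by exact_mod_cast hp1
      exact (Int.not_even_iff_odd.2 hodd) (even_iff_two_dvd.2 h2v)
    exact step3 h c1 c1' (hp1.trans hv) hpne (hG p hp (hp1.trans hv)) hp2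
  have hdvd : u ^ 2 ∣ A' * B - B' * A := by
    rcases Int.even_or_odd u with hev | hodd
    · obtain ⟨k, hk⟩ := hev
      have hk2 : u = 2 * k := by omega
      have hoddc : ∀ {x : ℤ}, IsCoprime x u → Odd x := by
        intro x hx
        rw [← Int.not_even_iff_odd]
        intro hxe
        have h2u : (2 : ℤ) ∣ u := ⟨k, hk2⟩
        have := hx.isUnit_of_dvd' (even_iff_two_dvd.1 hxe) h2u
        rw [Int.isUnit_iff] at this
        omega
      have e1 := at2 (hoddc c1) (hoddc c2) (by rw [← hk2]; exact h)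
      have e2 := at2 (hoddc c1') (hoddc c2') (by rw [← hk2]; exact h')
      have e3 := mod4 _ _ _ _ _ e1 e2
      have h4 : (4 : ℤ) ∣ A' * B - B' * A := by
        have : ((A' * B - B' * A : ℤ) : ZMod 4) = 0 := by
          push_cast
          rw [e3, sub_self]
        exact_mod_cast (ZMod.intCast_zmod_eq_zero_iff_dvd _ 4).1 this
      have hkodd : Odd k := by
        rw [← Int.not_even_iff_odd]
        intro hke
        obtain ⟨j, hj⟩ := hke
        have hj4 : (((k : ℤ)) : ZMod 4) = 2 * (j : ZMod 4) := by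
          rw [hj]
          push_cast
          ring
        rw [hj4] at e1
        have : ∀ a b j : ZMod 4, 2 * j * a * b ≠ 1 := by decide
        exact this _ _ _ e1
      have hk2d : k ^ 2 ∣ A' * B - B' * A := by
        have hc := (hcop k ⟨2, by rw [hk2]; ring⟩ hkodd).pow_left (m := 2)
        refine hc.dvd_of_dvd_mul_right ?_
        rw [hid, hk2]
        exact ⟨4 * (A * B - A' * B'), by ring⟩
      have hc4 : IsCoprime (4 : ℤ) (k ^ 2) := by
        have h2k : IsCoprime (2 : ℤ) k := by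
          obtain ⟨j, hj⟩ := hkodd
          exact ⟨-j, 1, by rw [hj]; ring⟩
        have := (h2k.pow_left (m := 2)).pow_right (n := 2)
        norm_num at this ⊢
        exact this
      have := hc4.mul_dvd h4 hk2d
      rw [hk2]
      have e : (2 * k) ^ 2 = 4 * k ^ 2 := by ring
      rw [e]
      exact this
    · have hc := (hcop u dvd_rfl hodd).pow_left (m := 2)
      refine hc.dvd_of_dvd_mul_right ?_
      rw [hid]
      exact ⟨A * B - A' * B', rfl⟩
  have hG0 : A' * B - B' * A = 0 := by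
    apply Int.eq_zero_of_abs_lt_dvd hdvd
    rw [abs_lt]
    have b1 : 1 ≤ A' * B := by nlinarith
    have b2 : 1 ≤ B' * A := by nlinarith
    have b3 : A' * B ≤ u ^ 2 := by
      rw [sq]
      exact mul_le_mul hAu' hBu (by linarith) (by linarith)
    have b4 : B' * A ≤ u ^ 2 := by
      rw [sq]
      exact mul_le_mul hBu' hAu (by linarith) (by linarith)
    constructor <;> linarith
  have hG1 : A' * B = B' * A := by linarith
  have d1 : A ∣ A' := c3.dvd_of_dvd_mul_right ⟨B', by rw [hG1]; ring⟩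
  have d2 : A' ∣ A := c3'.dvd_of_dvd_mul_left ⟨B, by rw [hG1]⟩
  have hAA : A = A' := Int.dvd_antisymm (by linarith) (by linarith) d1 d2
  refine ⟨hAA, ?_⟩
  subst hAA
  have : A * B = A * B' := by linarith
  exact mul_left_cancel₀ (by linarith) this

end Pool.Agent.N853.MX
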