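import Pool.Agent.N604.MW.Stm4

/-!
# Project KV, piece AC: Lebesgue measure is absolutely continuous with respect to the Gaussian
product (`pi_ac` is the lemma of helper292, `Pool/Agent/R292/BB/AC.lean`)
-/

set_option autoImplicit false

open MeasureTheory

namespace Pool.Agent.N853.KV

theorem pi_ac : ∀ (n : ℕ) (α : Fin n → Type) [∀ i, MeasurableSpace (α i)]
    (μ ν : ∀ i, Measure (α i)) [∀ i, SigmaFinite (μ i)] [∀ i, SigmaFinite (ν i)],
    (∀ i, μ i ≪ ν i) → Measure.pi μ ≪ Measure.pi ν := by
  intro n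
  induction n with
  | zero =>
    intro α _ μ ν _ _ _
    rw [Measure.pi_of_empty, Measure.pi_of_empty]
  | succ n ih =>
    intro α _ μ ν _ _ h
    have h1 := measurePreserving_piFinSuccAbove μ 0
    have h2 := measurePreserving_piFinSuccAbove ν 0
    have h3 := (h1.symm (MeasurableEquiv.piFinSuccAbove α 0)).map_eq
    have h4 := (h2.symm (MeasurableEquiv.piFinSuccAbove α 0)).map_eq
    rw [← h3, ← h4]
    exact ((h 0).prod (ih _ _ _ fun i => h _)).map (MeasurableEquiv.measurable _)

theorem ac : Pool.Agent.N604.MW.S_AC := by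
  intro s k P hP
  have h1 : (volume : Measure (Fin k → ℝ)) ≪ Pool.Agent.N604.MW.GM k := by
    unfold Pool.Agent.N604.MW.GM
    rw [volume_pi]
    exact pi_ac k (fun _ => ℝ) _ _ fun _ =>
      ProbabilityTheory.gaussianReal_absolutelyContinuous' 0 one_ne_zero
  have hp : IsProbabilityMeasure (Pool.Agent.N604.MW.GM k) := by
    unfold Pool.Agent.N604.MW.GM
    infer_instance
  have h2 : (volume : Measure (Fin s → Fin k → ℝ)) ≪ Pool.Agent.N604.MW.GMs s k := by
    unfold Pool.Agent.N604.MW.GMs
    rw [volume_pi]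
    exact pi_ac s (fun _ => Fin k → ℝ) _ _ fun _ => h1
  exact h2.ae_le hP

end Pool.Agent.N853.KV
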