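import Pool.Agent.N367.CORE.Stm

/-!
# The example `k[x, y] / (x ^ 2 y, y ^ 5)` as a standard graded algebra
-/

set_option autoImplicit false

namespace Pool.Agent.N853.COREex

open MvPolynomial DirectSum Pool.Agent.N367.CORE

universe u

section quot

variable {k B : Type*} [CommRing k] [CommRing B] [Algebra k B] (ℬ : ℕ → Submodule k B)
  [GradedAlgebra ℬ] (I : Ideal B)

/-- the image grading -/
def qg (n : ℕ) : Submodule k (B ⧸ I) := (ℬ n).map (Ideal.Quotient.mkₐ k I).toLinearMap

/-- the maps on the pieces -/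
noncomputable def qm (n : ℕ) : ℬ n →ₗ[k] qg ℬ I n :=
  (Ideal.Quotient.mkₐ k I).toLinearMap.restrict (p := ℬ n) (q := qg ℬ I n)
    (fun _ hx => Submodule.mem_map_of_mem hx)

/-- the map to the direct sum -/
noncomputable def qL : B →ₗ[k] ⨁ n, qg ℬ I n :=
  (DirectSum.lmap (qm ℬ I)) ∘ₗ (DirectSum.decomposeLinearEquiv ℬ).toLinearMap

theorem qL_apply (b : B) (n : ℕ) : (((qL ℬ I b) n : qg ℬ I n) : B ⧸ I) =
    Ideal.Quotient.mk I ((DirectSum.decompose ℬ b n : ℬ n) : B) := by
  unfold qL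
  rw [LinearMap.comp_apply, DirectSum.lmap_apply]
  rfl

theorem qL_zero (hI : I.IsHomogeneous ℬ) (a : B) (ha : a ∈ I) : qL ℬ I a = 0 := by
  refine DFinsupp.ext fun n => Subtype.ext ?_
  rw [qL_apply]
  exact Ideal.Quotient.eq_zero_iff_mem.2 (hI n ha)

/-- lifting of linear maps to quotients -/
noncomputable def liftL {M : Type*} [AddCommGroup M] [Module k M] (I : Ideal B) (L : B →ₗ[k] M)
    (h : ∀ a ∈ I, L a = 0) : (B ⧸ I) →ₗ[k] M :=
  (Submodule.liftQ (I.restrictScalars k) L (fun a ha => LinearMap.mem_ker.2 (h a ha))) ∘ₗ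
    (Submodule.Quotient.restrictScalarsEquiv k I).symm.toLinearMap

/-- the decomposition map -/
noncomputable def qD (hI : I.IsHomogeneous ℬ) : (B ⧸ I) →ₗ[k] ⨁ n, qg ℬ I n :=
  liftL (M := ⨁ n, qg ℬ I n) I (qL ℬ I) (fun a ha => qL_zero ℬ I hI a ha)

theorem qD_mk (hI : I.IsHomogeneous ℬ) (b : B) :
    qD ℬ I hI (Ideal.Quotient.mk I b) = qL ℬ I b := rfl

/-- the quotient of a graded algebra by a homogeneous ideal -/
@[reducible] noncomputable def qGA (hI : I.IsHomogeneous ℬ) : GradedAlgebra (qg ℬ I) where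
  one_mem := ⟨1, SetLike.GradedOne.one_mem, map_one (Ideal.Quotient.mk I)⟩
  mul_mem := by
    rintro i j _ _ ⟨a, ha, rfl⟩ ⟨b, hb, rfl⟩
    exact ⟨a * b, SetLike.GradedMul.mul_mem ha hb, map_mul (Ideal.Quotient.mk I) _ _⟩
  decompose' := qD ℬ I hI
  left_inv := by
    intro a
    obtain ⟨b, rfl⟩ := Ideal.Quotient.mk_surjective a
    rw [qD_mk]
    have h1 : ∀ b : B, (DirectSum.coeLinearMap (qg ℬ I)) (qL ℬ I b) = Ideal.Quotient.mk I b := by
      intro b
      have h2 : (DirectSum.coeLinearMap (qg ℬ I)) ∘ₗ (DirectSum.lmap (qm ℬ I)) =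
          (Ideal.Quotient.mkₐ k I).toLinearMap ∘ₗ (DirectSum.coeLinearMap ℬ) := by
        ext i x
        simp only [LinearMap.comp_apply, DirectSum.lmap_lof, DirectSum.coeLinearMap_lof]
        rfl
      have h3 := LinearMap.congr_fun h2 (DirectSum.decompose ℬ b)
      have h4 : (DirectSum.coeLinearMap ℬ) (DirectSum.decompose ℬ b) = b :=
        (DirectSum.decompose ℬ).symm_apply_apply b
      rw [LinearMap.comp_apply, LinearMap.comp_apply, h4] at h3
      exact h3
    exact h1 b
  right_inv := by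
    have h : (qD ℬ I hI) ∘ₗ (DirectSum.coeLinearMap (qg ℬ I)) = LinearMap.id := by
      ext i ⟨_, b, hb, rfl⟩ : 2
      rw [LinearMap.comp_apply, LinearMap.comp_apply, DirectSum.coeLinearMap_lof]
      refine Eq.trans (qD_mk ℬ I hI b) ?_
      unfold qL
      rw [LinearMap.comp_apply]
      change (DirectSum.lmap (qm ℬ I)) (DirectSum.decompose ℬ b) = _
      rw [DirectSum.decompose_of_mem ℬ hb]
      exact DirectSum.lmap_lof _ _ _
    intro z
    exact LinearMap.congr_fun h z

end quot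

section ex

variable (k : Type u) [Field k]

attribute [local instance] MvPolynomial.gradedAlgebra

/-- the ideal -/
noncomputable def JJ : Ideal (MvPolynomial (Fin 2) k) :=
  Ideal.span {(X 0) ^ 2 * X 1, (X 1) ^ 5}

theorem JJ_hom : (JJ k).IsHomogeneous (homogeneousSubmodule (Fin 2) k) := by
  apply Ideal.homogeneous_span
  rintro _ (rfl | rfl)
  · exact ⟨3, ((isHomogeneous_X k 0).pow 2).mul (isHomogeneous_X k 1)⟩
  · exact ⟨5, by simpa using (isHomogeneous_X k (1 : Fin 2)).pow 5⟩

/-- the lift of a map -/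
theorem lift_exists {S : Type*} [CommRing S] [Algebra k S] (a b : S) (h1 : a ^ 2 * b = 0)
    (h2 : b ^ 5 = 0) : ∃ f : (MvPolynomial (Fin 2) k ⧸ JJ k) →ₐ[k] S,
      f (Ideal.Quotient.mk _ (X 0)) = a ∧ f (Ideal.Quotient.mk _ (X 1)) = b := by
  have hle : ∀ p ∈ JJ k, (aeval ![a, b] : MvPolynomial (Fin 2) k →ₐ[k] S) p = 0 := by
    have : JJ k ≤ RingHom.ker (aeval ![a, b] : MvPolynomial (Fin 2) k →ₐ[k] S) := by
      apply Ideal.span_le.2
      rintro _ (rfl | rfl)
      · simp [RingHom.mem_ker, h1]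
      · simp [RingHom.mem_ker, h2]
    intro p hp
    exact this hp
  refine ⟨Ideal.Quotient.liftₐ _ (aeval ![a, b]) hle, ?_, ?_⟩
  · change (aeval ![a, b] : MvPolynomial (Fin 2) k →ₐ[k] S) (X 0) = a
    simp
  · change (aeval ![a, b] : MvPolynomial (Fin 2) k →ₐ[k] S) (X 1) = b
    simp

theorem ex : S_EX.{u} := by
  intro k _
  let ga := qGA (homogeneousSubmodule (Fin 2) k) (JJ k) (JJ_hom k)
  set x : MvPolynomial (Fin 2) k ⧸ JJ k := Ideal.Quotient.mk _ (X 0) with hx
  set y : MvPolynomial (Fin 2) k ⧸ JJ k := Ideal.Quotient.mk _ (X 1) with hy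
  have hx1 : x ∈ qg (homogeneousSubmodule (Fin 2) k) (JJ k) 1 :=
    ⟨X 0, isHomogeneous_X k 0, rfl⟩
  have hy1 : y ∈ qg (homogeneousSubmodule (Fin 2) k) (JJ k) 1 :=
    ⟨X 1, isHomogeneous_X k 1, rfl⟩
  have hπ := lift_exists k (Polynomial.X : Polynomial k) 0 (by ring) (by ring)
  have hall : ∀ a : MvPolynomial (Fin 2) k ⧸ JJ k, ∃ (c : k) (b : MvPolynomial (Fin 2) k ⧸ JJ k),
      b ∈ Ideal.span {x, y} ∧ a = algebraMap k _ c + b := by
    intro a
    obtain ⟨p, rfl⟩ := Ideal.Quotient.mk_surjective a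
    induction p using MvPolynomial.induction_on with
    | C c => exact ⟨c, 0, Submodule.zero_mem _, by rw [add_zero]; rfl⟩
    | add p q hp hq =>
      obtain ⟨c, b, hb, e1⟩ := hp
      obtain ⟨d, b', hb', e2⟩ := hq
      refine ⟨c + d, b + b', Submodule.add_mem _ hb hb', ?_⟩
      rw [map_add, e1, e2, map_add]
      ring
    | mul_X p i hp =>
      refine ⟨0, Ideal.Quotient.mk _ (p * X i), ?_, by rw [map_zero, zero_add]⟩
      rw [map_mul]
      apply Ideal.mul_mem_left
      apply Ideal.subset_span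
      fin_cases i
      · left; rfl
      · right; rfl
  refine ⟨MvPolynomial (Fin 2) k ⧸ JJ k, inferInstance, inferInstance,
    qg (homogeneousSubmodule (Fin 2) k) (JJ k), ga, x, y, ⟨?_, ?_, ?_⟩, ?_, ?_, ?_, ?_, hπ, ?_⟩
  · obtain ⟨π, -⟩ := hπ
    exact π.toRingHom.domain_nontrivial
  · rintro _ ⟨p, hp, rfl⟩
    have h1 : p.totalDegree = 0 := Nat.le_zero.1 (IsHomogeneous.totalDegree_le hp)
    obtain h2 := totalDegree_eq_zero_iff_eq_C.1 h1
    refine ⟨coeff 0 p, ?_⟩
    conv_rhs => rw [h2]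
    rfl
  · classical
    refine ⟨{x, y}, ?_, ?_⟩
    · intro a ha
      rw [Finset.mem_insert, Finset.mem_singleton] at ha
      rcases ha with rfl | rfl
      · exact hx1
      · exact hy1
    · rw [eq_top_iff]
      rintro a -
      obtain ⟨p, rfl⟩ := Ideal.Quotient.mk_surjective a
      induction p using MvPolynomial.induction_on with
      | C c => exact Subalgebra.algebraMap_mem _ c
      | add p q hp hq =>
        rw [map_add]
        exact Subalgebra.add_mem _ hp hq
      | mul_X p i hp =>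
        rw [map_mul]
        apply Subalgebra.mul_mem _ hp
        apply Algebra.subset_adjoin
        fin_cases i
        · simp [hx]
        · simp [hy]
  · apply le_antisymm
    · unfold qg
      rw [homogeneousSubmodule_one_eq_span_X, Submodule.map_span, Submodule.span_le]
      rintro _ ⟨_, ⟨i, rfl⟩, rfl⟩
      apply Submodule.subset_span
      fin_cases i
      · left; rfl
      · right; rfl
    · rw [Submodule.span_le]
      rintro _ (rfl | rfl)
      · exact hx1
      · exact hy1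
  · rw [hx, hy, ← map_pow, ← map_mul]
    exact Ideal.Quotient.eq_zero_iff_mem.2 (Ideal.subset_span (Or.inl rfl))
  · rw [hy, ← map_pow]
    exact Ideal.Quotient.eq_zero_iff_mem.2 (Ideal.subset_span (Or.inr rfl))
  · have hsub : Ideal.span {x, y} ≤ Aplus (qg (homogeneousSubmodule (Fin 2) k) (JJ k)) := by
      rw [Ideal.span_le]
      rintro _ (rfl | rfl)
      · exact HomogeneousIdeal.mem_irrelevant_of_mem _ one_pos hx1
      · exact HomogeneousIdeal.mem_irrelevant_of_mem _ one_pos hy1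
    refine le_antisymm ?_ hsub
    intro a ha
    obtain ⟨c, b, hb, rfl⟩ := hall a
    have h1 := (HomogeneousIdeal.mem_irrelevant_iff _ _).1 ha
    have h2 := (HomogeneousIdeal.mem_irrelevant_iff _ _).1 (hsub hb)
    rw [map_add, h2, add_zero] at h1
    have h3 : algebraMap k (MvPolynomial (Fin 2) k ⧸ JJ k) c = 0 := by
      have h4 : algebraMap k (MvPolynomial (Fin 2) k ⧸ JJ k) c ∈
          qg (homogeneousSubmodule (Fin 2) k) (JJ k) 0 := ⟨C c, isHomogeneous_C _ c, rfl⟩
      rw [GradedRing.proj_apply, DirectSum.decompose_of_mem_same _ h4] at h1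
      exact h1
    rw [h3, zero_add]
    exact hb
  · apply lift_exists k
    · have e : ∀ q : (Polynomial k ⧸ Ideal.span {(Polynomial.X : Polynomial k) ^ 5}),
          (-q ^ 2) ^ 2 * q = q ^ 5 := fun q => by ring
      rw [e, ← map_pow]
      exact Ideal.Quotient.eq_zero_iff_mem.2 (Ideal.subset_span rfl)
    · rw [← map_pow]
      exact Ideal.Quotient.eq_zero_iff_mem.2 (Ideal.subset_span rfl)

end ex

end Pool.Agent.N853.COREex
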