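import Pool.Agent.N585.PT.Defs

/-!
# PT/7: the whole tree
-/

set_option autoImplicit false

namespace Pool.Agent.N853.PT7

open Pool.Agent.N585.PT

variable {V : Type} {G : SimpleGraph V}

/-- connection inside a set -/
def conn (G : SimpleGraph V) (S : V → Prop) (a b : V) : Prop :=
  Relation.ReflTransGen (fun a b => G.Adj a b ∧ S b) a b

theorem conn_symm {S : V → Prop} {a b : V} (ha : S a) (h : conn G S a b) :
    S b ∧ conn G S b a := by
  induction h with
  | refl => exact ⟨ha, Relation.ReflTransGen.refl⟩
  | tail _ h ih => exact ⟨h.2, Relation.ReflTransGen.head ⟨h.1.symm, ih.1⟩ ih.2⟩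

theorem conn_head {S : V → Prop} : ∀ (Q : List V) (x : V), (x :: Q).IsChain G.Adj →
    (∀ w ∈ Q, S w) → ∀ b ∈ x :: Q, conn G S x b := by
  intro Q
  induction Q with
  | nil =>
    intro x _ _ b hb
    rw [List.mem_singleton] at hb
    rw [hb]
    exact Relation.ReflTransGen.refl
  | cons y Q ih =>
    intro x hx hS b hb
    rw [List.isChain_cons_cons] at hx
    rcases List.mem_cons.1 hb with rfl | hb
    · exact Relation.ReflTransGen.refl
    · exact Relation.ReflTransGen.head ⟨hx.1, hS y List.mem_cons_self⟩
        (ih y hx.2 (fun w hw => hS w (List.mem_cons_of_mem _ hw)) b hb)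

theorem conn_chain {S : V → Prop} {Q : List V} (hQ : Q.IsChain G.Adj) (hS : ∀ w ∈ Q, S w)
    {a b : V} (ha : a ∈ Q) (hb : b ∈ Q) : conn G S a b := by
  cases Q with
  | nil => simp at ha
  | cons x Q =>
    have h1 := conn_head Q x hQ (fun w hw => hS w (List.mem_cons_of_mem _ hw)) a ha
    have h2 := conn_head Q x hQ (fun w hw => hS w (List.mem_cons_of_mem _ hw)) b hb
    exact (conn_symm (hS x List.mem_cons_self) h1).2.trans h2

theorem conn_dec {S : V → Prop} : ∀ L : List (List V), (∀ Q ∈ L, Q.IsChain G.Adj) →
    L.IsChain (Link G) → (∀ w ∈ L.flatten, S w) → ∀ a ∈ L.flatten, ∀ b ∈ L.flatten,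
    conn G S a b := by
  intro L
  induction L with
  | nil => simp
  | cons Q L ih =>
    intro hc hl hS a ha b hb
    have hQc := hc Q List.mem_cons_self
    have hSQ : ∀ w ∈ Q, S w := fun w hw => hS w (by simp [hw])
    have hSL : ∀ w ∈ L.flatten, S w := fun w hw => hS w (by
      rw [List.flatten_cons, List.mem_append]; exact Or.inr hw)
    cases L with
    | nil =>
      simp only [List.flatten_cons, List.flatten_nil, List.append_nil] at ha hb
      exact conn_chain hQc hSQ ha hb
    | cons Q' L' =>
      rw [List.isChain_cons_cons] at hl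
      have ih' := ih (fun R hR => hc R (List.mem_cons_of_mem _ hR)) hl.2 hSL
      obtain ⟨t, u, v, hu, hv, huv⟩ := hl.1
      have hu' : u ∈ Q := List.mem_reverse.1 (List.mem_of_getElem? hu)
      have hv' : v ∈ (Q' :: L').flatten := by
        rw [List.flatten_cons, List.mem_append]
        exact Or.inl (List.mem_of_getElem? hv)
      -- every element is connected with `u`
      have key : ∀ c ∈ (Q :: Q' :: L').flatten, conn G S u c := by
        intro c hc'
        rw [List.flatten_cons, List.mem_append] at hc'
        rcases hc' with hc' | hc'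
        · exact conn_chain hQc hSQ hu' hc'
        · exact Relation.ReflTransGen.head ⟨huv, hSL v hv'⟩ (ih' v hv' c hc')
      exact (conn_symm (hSQ u hu') (key a ha)).2.trans (key b hb)

theorem RA_of_conn {S : V → Prop} {u a b : V} (ha : a ≠ u) (hu : ¬ S u) (h : conn G S a b) :
    RA G u a b :=
  ⟨ha, Relation.ReflTransGen.mono (fun _ _ h => ⟨h.1, fun e => hu (e ▸ h.2)⟩) _ _ h⟩

theorem RA_ne {u a b : V} (h : RA G u a b) : b ≠ u := by
  obtain ⟨h1, h2⟩ := h
  induction h2 with
  | refl => exact h1
  | tail _ h _ => exact h.2

section tree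

variable [Fintype V]

theorem no_cycle (h : StmPath) (hG : G.IsTree) {u v w : V} (huv : G.Adj u v) (h1 : RA G u v w)
    (h2 : RA G v u w) : False := by
  obtain ⟨P, hc, hn, hh, hl⟩ := (h V G hG).1 v w
  have hP := ((h V G hG).2 P v w hc hn hh hl).1
  have hu : u ∉ P := by
    rw [hP]
    rintro (h3 | h3 | h3)
    · exact huv.ne h3
    · exact RA_ne h1 h3.symm
    · exact h3 h1
  cases P with
  | nil => simp at hh
  | cons z P =>
    rw [List.head?_cons, Option.some.injEq] at hh
    subst hh
    have h4 := ((h V G hG).2 (u :: z :: P) u w (List.isChain_cons_cons.2 ⟨huv, hc⟩)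
      (List.nodup_cons.2 ⟨hu, hn⟩) rfl (by rw [List.getLast?_cons_cons]; exact hl)).1 z
    have h5 := h4.1 (by simp)
    rcases h5 with h5 | h5 | h5
    · exact huv.ne h5.symm
    · exact RA_ne h2 h5.symm
    · exact h5 h2

/-- the final part of a path -/
theorem final_part (h : StmPath) (hG : G.IsTree) {Q : List V} (hc : Q.IsChain G.Adj)
    (hn : Q.Nodup) {u y : V} (hy : Q.getLast? = some y) {j : ℕ} (hj : Q[j]? = some u) :
    dd G u y = Q.length - j := by
  have hjl : j < Q.length := (List.getElem?_eq_some_iff.1 hj).1
  have h1 := ((h V G hG).2 (Q.drop j) u y (hc.suffix (List.drop_suffix _ _))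
    (hn.sublist (List.drop_sublist _ _)) (by rw [List.head?_drop]; exact hj)
    (by rw [List.getLast?_drop, if_neg (by omega)]; exact hy)).2
  rw [h1, List.length_drop]

omit [Fintype V] in
theorem rev_get {Q : List V} {t : ℕ} (ht : t < Q.length) :
    Q.reverse[t]? = Q[Q.length - 1 - t]? := List.getElem?_reverse ht

theorem stmTop (h : StmPath) (hbr : StmBr) : StmTop := by
  classical
  intro V _ G hG
  constructor
  · rintro ⟨L, ⟨hL1, hL2, hL3⟩, hL4⟩
    have hne : Nonempty V := hG.connected.nonempty
    cases L with
    | nil =>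
      obtain ⟨z⟩ := hne
      exact absurd (hL4 z) (by simp)
    | cons Q L =>
      obtain ⟨hQ0, hQc⟩ := hL1 Q List.mem_cons_self
      have hhead : ∃ x, Q.head? = some x := by
        cases Q with
        | nil => exact absurd rfl hQ0
        | cons a Q => exact ⟨a, rfl⟩
      obtain ⟨x, hx⟩ := hhead
      have hlast : ∃ y, Q.getLast? = some y := ⟨Q.getLast hQ0, List.getLast?_eq_getLast_of_ne_nil hQ0⟩
      obtain ⟨y, hy⟩ := hlast
      rw [List.flatten_cons, List.nodup_append] at hL3
      obtain ⟨hn1, hn2, hdis⟩ := hL3
      obtain ⟨hP, hdd⟩ := (h V G hG).2 Q x y hQc hn1 hx hy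
      have hcard : Q.length + L.flatten.length = Fintype.card V := by
        have hnd : (Q :: L).flatten.Nodup := by
          rw [List.flatten_cons, List.nodup_append]
          exact ⟨hn1, hn2, hdis⟩
        have h1 : (Q :: L).flatten.toFinset = Finset.univ := by
          ext z
          simp only [List.mem_toFinset, Finset.mem_univ, iff_true]
          exact hL4 z
        have h2 := List.toFinset_card_of_nodup hnd
        rw [h1, Finset.card_univ, List.flatten_cons, List.length_append] at h2
        exact h2.symm
      refine ⟨x, y, ?_⟩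
      cases L with
      | nil =>
        left
        rw [hdd, ← hcard]
        simp
      | cons Q' L' =>
        right
        rw [List.isChain_cons_cons] at hL2
        obtain ⟨t, u, v, hu, hv, huv⟩ := hL2.1
        have huQ : u ∈ Q := List.mem_reverse.1 (List.mem_of_getElem? hu)
        have hvS : v ∈ (Q' :: L').flatten := by
          rw [List.flatten_cons, List.mem_append]
          exact Or.inl (List.mem_of_getElem? hv)
        have huS : u ∉ (Q' :: L').flatten := fun h1 => hdis u huQ u h1 rfl
        have hvQ : v ∉ Q := fun h1 => hdis v h1 v hvS rfl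
        have hmem : ∀ w, w ∈ (Q' :: L').flatten ↔ RA G u v w := by
          intro w
          constructor
          · intro hw
            exact RA_of_conn (S := fun z => z ∈ (Q' :: L').flatten) huv.ne' huS
              (conn_dec _ (fun R hR => (hL1 R (List.mem_cons_of_mem _ hR)).2) hL2.2
                (fun _ h => h) v hvS w hw)
          · intro hw
            have h1 := hL4 w
            rw [List.flatten_cons, List.mem_append] at h1
            rcases h1 with h1 | h1
            · exfalso
              exact no_cycle h hG huv hw (RA_of_conn (S := fun z => z ∈ Q) huv.ne hvQ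
                (conn_chain hQc (fun _ h => h) huQ h1))
            · exact h1
        have htl : t < Q.length := by
          have := (List.getElem?_eq_some_iff.1 hu).1
          rwa [List.length_reverse] at this
        have hdt : dd G u y = t + 1 := by
          rw [rev_get htl] at hu
          rw [final_part h hG hQc hn1 hy hu]
          omega
        have hbrS : br G u v = (Q' :: L').flatten.length := by
          rw [← List.toFinset_card_of_nodup hn2]
          unfold br
          congr 1
          ext w
          simp only [Finset.mem_filter, Finset.mem_univ, true_and, List.mem_toFinset]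
          exact (hmem w).symm
        refine ⟨u, v, (hP u).1 huQ, huv, fun h1 => hvQ ((hP v).2 h1), ?_, ?_⟩
        · rw [hdd, hbrS, hcard]
        · rw [hbr V G hG u v _ huv]
          refine ⟨Q', L', ⟨fun R hR => hL1 R (List.mem_cons_of_mem _ hR), hL2.2, hn2⟩, hmem, ?_, ?_⟩
          · rw [hdt]; omega
          · rw [hdt, Nat.add_sub_cancel]; exact hv
  · rintro ⟨x, y, hT⟩
    obtain ⟨Q, hQc, hn1, hx, hy⟩ := (h V G hG).1 x y
    obtain ⟨hP, hdd⟩ := (h V G hG).2 Q x y hQc hn1 hx hy
    have hQ0 : Q ≠ [] := by
      rintro rfl
      simp at hx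
    rcases hT with hT | ⟨u, v, hu, huv, hv, hsum, hCC⟩
    · refine ⟨[Q], ⟨?_, List.isChain_singleton _, by simpa using hn1⟩, ?_⟩
      · intro R hR
        rw [List.mem_singleton] at hR
        subst hR
        exact ⟨hQ0, hQc⟩
      · intro z
        have h1 : Q.toFinset = Finset.univ := by
          rw [← Finset.card_eq_iff_eq_univ, List.toFinset_card_of_nodup hn1, ← hdd, hT]
        have h2 : z ∈ Q.toFinset := by rw [h1]; exact Finset.mem_univ z
        simpa using h2
    · rw [hbr V G hG u v _ huv] at hCC
      obtain ⟨Q', L', ⟨hL1, hL2, hn2⟩, hmem, h1k, hget⟩ := hCC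
      have huQ : u ∈ Q := (hP u).2 hu
      have hvQ : v ∉ Q := fun h1 => hv ((hP v).1 h1)
      have hdis : ∀ a ∈ Q, ∀ b ∈ (Q' :: L').flatten, a ≠ b := by
        rintro a ha _ hb rfl
        exact no_cycle h hG huv ((hmem a).1 hb) (RA_of_conn (S := fun z => z ∈ Q) huv.ne hvQ
          (conn_chain hQc (fun _ h => h) huQ ha))
      have hnd : (Q :: Q' :: L').flatten.Nodup := by
        rw [List.flatten_cons, List.nodup_append]
        exact ⟨hn1, hn2, hdis⟩
      have hbrS : br G u v = (Q' :: L').flatten.length := by
        rw [← List.toFinset_card_of_nodup hn2]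
        unfold br
        congr 1
        ext w
        simp only [Finset.mem_filter, Finset.mem_univ, true_and, List.mem_toFinset]
        exact (hmem w).symm
      obtain ⟨j, hj⟩ := List.mem_iff_getElem?.1 huQ
      have hjl : j < Q.length := (List.getElem?_eq_some_iff.1 hj).1
      have hduy := final_part h hG hQc hn1 hy hj
      refine ⟨Q :: Q' :: L', ⟨?_, ?_, hnd⟩, ?_⟩
      · intro R hR
        rcases List.mem_cons.1 hR with rfl | hR
        · exact ⟨hQ0, hQc⟩
        · exact hL1 R hR
      · rw [List.isChain_cons_cons]
        refine ⟨⟨dd G u y - 1, u, v, ?_, hget, huv⟩, hL2⟩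
        rw [rev_get (by omega), hduy, ← hj]
        congr 1
        omega
      · intro z
        have h1 : (Q :: Q' :: L').flatten.toFinset = Finset.univ := by
          rw [← Finset.card_eq_iff_eq_univ, List.toFinset_card_of_nodup hnd, List.flatten_cons,
            List.length_append, ← hdd, ← hbrS, hsum]
        have h2 : z ∈ (Q :: Q' :: L').flatten.toFinset := by rw [h1]; exact Finset.mem_univ z
        exact List.mem_toFinset.1 h2

end tree

end Pool.Agent.N853.PT7
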