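import Pool.Agent.N841.WS.Stm

/-! Project WS (helper841), part FAM (helper853): a family of functions to the circle gives a family
of sets. -/

set_option autoImplicit false

open Cardinal Topology TopologicalSpace Set Filter

namespace Pool.Agent.N853.WS

open Pool.Agent.N841.WS

theorem t_FAM : S_FAM := by
  intro H Φ hH hΦ hS
  obtain ⟨b, hbc, -, hb⟩ := TopologicalSpace.exists_countable_basis Circle
  have hc : #(H × b) ≤ #(ℕ → Bool) := by
    have h1 : #(ℕ → Bool) = 𝔠 := by simp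
    rw [h1, Cardinal.mk_prod, lift_id, lift_id]
    calc #H * #b ≤ 𝔠 * 𝔠 :=
          mul_le_mul' hH ((Cardinal.le_aleph0_iff_set_countable.2 hbc).trans aleph0_le_continuum)
      _ = 𝔠 := continuum_mul_self
  obtain ⟨e⟩ := hc
  let A : (H → Circle) → Set (ℕ → Bool) := fun φ => e '' {p | φ p.1 ∈ (p.2 : Set Circle)}
  have hA : ∀ φ p, e p ∈ A φ ↔ φ p.1 ∈ (p.2 : Set Circle) := by
    intro φ p
    exact e.injective.mem_set_image
  have hinj : Function.Injective A := by
    intro φ ψ h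
    funext x
    have h1 : Inseparable (φ x) (ψ x) := by
      rw [hb.inseparable_iff]
      intro s hs
      have h2 := hA φ (x, ⟨s, hs⟩)
      rw [h] at h2
      exact h2.symm.trans (hA ψ (x, ⟨s, hs⟩))
    exact h1.eq
  refine ⟨A '' Φ, ?_, ?_⟩
  · rw [Cardinal.mk_image_eq hinj]
    exact hΦ
  · intro S hSc
    let T : Set H := {h | ∃ n : b, e (h, n) ∈ S}
    have hT : T.Countable := by
      have h1 : (e ⁻¹' S).Countable := hSc.preimage e.injective
      refine (h1.image Prod.fst).mono ?_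
      rintro h ⟨n, hn⟩
      exact ⟨(h, n), hn, rfl⟩
    refine le_trans (Cardinal.power_le_power_left two_ne_zero ?_) (hS T hT)
    have hdet : ∀ φ ψ : H → Circle, (∀ h ∈ T, φ h = ψ h) → A φ ∩ S ⊆ A ψ ∩ S := by
      rintro φ ψ h q ⟨⟨p, hp, rfl⟩, hq⟩
      refine ⟨(hA ψ p).2 ?_, hq⟩
      have h1 : p.1 ∈ T := ⟨p.2, hq⟩
      rw [← h p.1 h1]
      exact hp
    have hex : ∀ t : traces (A '' Φ) S, ∃ φ : Φ, (t : Set (ℕ → Bool)) = A φ.1 ∩ S := by
      rintro ⟨t, B, ⟨φ, hφ, rfl⟩, rfl⟩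
      exact ⟨⟨φ, hφ⟩, rfl⟩
    choose f hf using hex
    refine Cardinal.mk_le_of_injective (f := fun t : traces (A '' Φ) S =>
      (⟨fun s : T => (f t).1 s.1, ⟨f t, rfl⟩⟩ :
        Set.range fun φ : Φ => fun s : T => φ.1 s.1)) ?_
    intro t t' htt
    have h1 : (fun s : T => (f t).1 s.1) = fun s : T => (f t').1 s.1 := congrArg Subtype.val htt
    have h2 : ∀ h ∈ T, (f t).1 h = (f t').1 h := fun h hh => congrFun h1 ⟨h, hh⟩
    apply Subtype.ext
    rw [hf t, hf t']
    exact Set.Subset.antisymm (hdet _ _ h2) (hdet _ _ fun h hh => (h2 h hh).symm)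

end Pool.Agent.N853.WS
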